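import Pool.Agent.MP_97806e_pr.H84.Level

namespace Pool.Agent.Results.MP_97806e_pr.Annealed

open MeasureTheory Pool.Agent.MP_97806e_pr.H84

/-- Q1: an offspring law with finite mean `m > 1` whose annealed survival function has an
order `2` expansion at `1/m` from the right but is not of class `C^2` there. -/
theorem result : ∃ μ : Measure ℕ, IsProbabilityMeasure μ ∧ Integrable (fun n : ℕ => (n : ℝ)) μ ∧
    1 < ∫ n, (n : ℝ) ∂μ ∧
    HasExpansion (annealed μ) (∫ n, (n : ℝ) ∂μ)⁻¹ 2 ∧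
    ¬ SmoothRight (annealed μ) (∫ n, (n : ℝ) ∂μ)⁻¹ 2 := by
  obtain ⟨μ, hμ⟩ := exists_good
  exact ⟨μ, hμ.prob, hμ.int, by linarith [hμ.mean_ge], hμ.annealed_main⟩

end Pool.Agent.Results.MP_97806e_pr.Annealed
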